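import Pool.Agent.NE.Stmts
import Pool.Agent.Helper77_BC.Sch

/-! Squad NLE, row FNA (helper17): from the basic sequence and the martingale to the conclusion. -/

set_option autoImplicit false

open Finset Filter Topology

namespace Pool.Agent.NE.H17

open Pool.Agent.NE

theorem fna (hc : CrvStmt) : FnaStmt := by
  intro X _ _ _ z K σ w Y M hz hb hB hmem hp
  obtain ⟨f, h1, h2, h3⟩ := hc X (Submodule.span ℝ (Set.range z)).topologicalClosure σ w Y M
    (Submodule.isClosed_topologicalClosure _) hB hmem hp
  refine ⟨(Submodule.span ℝ (Set.range z)).topologicalClosure,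
    Submodule.isClosed_topologicalClosure _, ⟨z, ?_, ?_⟩, f, h1, h2, h3⟩
  · intro i
    exact Submodule.le_topologicalClosure _ (Submodule.subset_span ⟨i, rfl⟩)
  · intro y hy
    exact Pool.Agent.BC.H77.sch X z K hz hb y hy

end Pool.Agent.NE.H17
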